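import Pool.Agent.Work.MP_e0aece_nt.Bd.B02

/-!
# Item A1: zero sums from a spectral gap
-/

namespace Pool.Agent.Work.MP_e0aece_nt.Sq

open Finset

namespace ItemA1

theorem chi_sum {G κ : Type} [AddCommGroup G] (χ : AddChar G ℂ) (S : Finset κ) (f : κ → G) :
    χ (∑ i ∈ S, f i) = ∏ i ∈ S, χ (f i) := by
  classical
  induction S using Finset.induction_on with
  | empty => simp
  | insert a S ha ih => rw [sum_insert ha, prod_insert ha, AddChar.map_add_eq_mul, ih]

variable {Ω : Type} [Fintype Ω] [DecidableEq Ω]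

omit [DecidableEq Ω] in
theorem sum_all (s : ℕ) (f : Ω → ℂ) :
    ∑ t : Fin s → Ω, ∏ k, f (t k) = (∑ a, f a) ^ s := by
  rw [sum_pow', Fintype.piFinset_univ]

theorem sum_pair {s : ℕ} (i j : Fin s) (hij : i ≠ j) (f : Ω → ℂ) :
    ∑ t ∈ (univ : Finset (Fin s → Ω)).filter (fun t => t i = t j), ∏ k, f (t k) =
      (∑ a, f a ^ 2) * (∑ a, f a) ^ (s - 2) := by
  have h1 : ∀ a : Ω, ((univ : Finset (Fin s → Ω)).filter (fun t => t i = t j)).filter
      (fun t => t i = a) =
      Fintype.piFinset (fun k => if k = i ∨ k = j then ({a} : Finset Ω) else univ) := by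
    intro a
    ext t
    simp only [mem_filter, mem_univ, true_and, Fintype.mem_piFinset]
    constructor
    · rintro ⟨h, h'⟩ k
      by_cases hk : k = i ∨ k = j
      · rw [if_pos hk, mem_singleton]
        rcases hk with rfl | rfl
        · exact h'
        · rw [← h, h']
      · rw [if_neg hk]
        exact mem_univ _
    · intro h
      have hi := h i
      have hj := h j
      rw [if_pos (Or.inl rfl), mem_singleton] at hi
      rw [if_pos (Or.inr rfl), mem_singleton] at hj
      exact ⟨by rw [hi, hj], hi⟩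
  have h2 : ∀ a : Ω, ∑ t ∈ Fintype.piFinset
      (fun k => if k = i ∨ k = j then ({a} : Finset Ω) else univ), ∏ k, f (t k) =
      f a ^ 2 * (∑ a, f a) ^ (s - 2) := by
    intro a
    rw [← prod_univ_sum (fun k => if k = i ∨ k = j then ({a} : Finset Ω) else univ)
      (fun _ x => f x)]
    have h3 : ∀ k : Fin s, ∑ x ∈ (if k = i ∨ k = j then ({a} : Finset Ω) else univ), f x =
        if k = i ∨ k = j then f a else ∑ a, f a := by
      intro k
      split_ifs <;> simp
    simp_rw [h3]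
    rw [prod_ite, prod_const, prod_const]
    have h4 : ((univ : Finset (Fin s)).filter (fun k => k = i ∨ k = j)).card = 2 := by
      have : (univ : Finset (Fin s)).filter (fun k => k = i ∨ k = j) = {i, j} := by
        ext k
        simp
      rw [this, card_pair hij]
    have h5 := card_filter_add_card_filter_not (s := (univ : Finset (Fin s)))
      (fun k => k = i ∨ k = j)
    rw [h4, card_univ, Fintype.card_fin] at h5
    have h6 : ((univ : Finset (Fin s)).filter (fun k => ¬ (k = i ∨ k = j))).card = s - 2 := by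
      omega
    rw [h4, h6]
  rw [← sum_fiberwise _ (fun t => t i)]
  simp_rw [h1, h2]
  rw [← sum_mul]

omit [Fintype Ω] [DecidableEq Ω] in
theorem orth {G : Type} [AddCommGroup G] [Fintype G] [DecidableEq G] (gg : Ω → G) (w : Ω → ℝ)
    {s : ℕ} (P : Finset (Fin s → Ω)) :
    (Fintype.card G : ℂ) * ((∑ t ∈ P.filter (fun t => ∑ k, gg (t k) = 0), ∏ k, w (t k) : ℝ) : ℂ) =
      ∑ χ : AddChar G ℂ, ∑ t ∈ P, ∏ k, ((w (t k) : ℂ) * χ (gg (t k))) := by
  rw [sum_comm]
  have h1 : ∀ t ∈ P, ∑ χ : AddChar G ℂ, ∏ k, ((w (t k) : ℂ) * χ (gg (t k))) =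
      if ∑ k, gg (t k) = 0 then (Fintype.card G : ℂ) * ((∏ k, w (t k) : ℝ) : ℂ) else 0 := by
    intro t _
    have h2 : ∀ χ : AddChar G ℂ, ∏ k, ((w (t k) : ℂ) * χ (gg (t k))) =
        ((∏ k, w (t k) : ℝ) : ℂ) * χ (∑ k, gg (t k)) := by
      intro χ
      rw [prod_mul_distrib, chi_sum]
      push_cast
      rfl
    simp_rw [h2]
    rw [← mul_sum, AddChar.sum_apply_eq_ite]
    split_ifs
    · ring
    · ring
  rw [sum_congr rfl h1, ← sum_filter, ← mul_sum]
  push_cast
  rfl

end ItemA1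

open ItemA1 in
theorem claimA1 : ClaimA1 := by
  classical
  intro G Ω _ _ _ _ gg w mx δ lam s Γ hw hmx hS hδ0 hδ1 hlam hs h1Γ hΓ hgap hpow hmxs
  set S := ∑ a, w a with hSdef
  by_contra hcon
  -- the Fourier coefficients
  let Fc : AddChar G ℂ → ℂ := fun χ => ∑ a, (w a : ℂ) * χ (gg a)
  have hcard : (0 : ℝ) < Fintype.card G := by exact_mod_cast Fintype.card_pos
  have hδ : 0 ≤ 1 - δ := by linarith
  have hchi : ∀ (χ : AddChar G ℂ) (g : G), ‖χ g‖ = 1 := fun χ g => χ.norm_apply g
  have hFle : ∀ χ, ‖Fc χ‖ ≤ S := by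
    intro χ
    refine (norm_sum_le _ _).trans (le_of_eq ?_)
    refine sum_congr rfl fun a _ => ?_
    rw [norm_mul, hchi, mul_one, Complex.norm_real, Real.norm_of_nonneg (hw a)]
  have hw2 : ∑ a, w a ^ 2 ≤ mx * S := by
    rw [hSdef, mul_sum]
    refine sum_le_sum fun a _ => ?_
    rw [sq]
    exact mul_le_mul_of_nonneg_right (hmx a) (hw a)
  have hmx0 : 0 ≤ mx := by
    by_contra hneg
    push Not at hneg
    have : S ≤ 0 := by
      rw [hSdef]
      exact sum_nonpos fun a _ => (hmx a).trans hneg.le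
    linarith
  -- lower bound for the number of zero sums
  have hN : S ^ s * ((Γ.card : ℝ) - 1 / 4) ≤ Fintype.card G *
      ∑ t ∈ (univ : Finset (Fin s → Ω)).filter (fun t => ∑ k, gg (t k) = 0), ∏ k, w (t k) := by
    have e1 := orth gg w (univ : Finset (Fin s → Ω))
    have e2 : ∀ χ : AddChar G ℂ, ∑ t : Fin s → Ω, ∏ k, ((w (t k) : ℂ) * χ (gg (t k))) =
        Fc χ ^ s := fun χ => sum_all s (fun a => (w a : ℂ) * χ (gg a))
    simp_rw [e2] at e1
    have e3 := congrArg Complex.re e1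
    rw [Complex.re_sum, ← Complex.ofReal_natCast, ← Complex.ofReal_mul, Complex.ofReal_re] at e3
    rw [e3, ← sum_filter_add_sum_filter_not univ (fun χ => χ ∈ Γ)]
    have e4 : ∑ χ ∈ univ.filter (fun χ : AddChar G ℂ => χ ∈ Γ), (Fc χ ^ s).re =
        Γ.card * S ^ s := by
      have e5 : univ.filter (fun χ : AddChar G ℂ => χ ∈ Γ) = Γ := by
        ext χ
        simp
      rw [e5]
      have e6 : ∀ χ ∈ Γ, (Fc χ ^ s).re = S ^ s := by
        intro χ hχ
        obtain ⟨ζ, hζ, hz⟩ := hΓ χ hχ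
        have e7 : Fc χ = (S : ℂ) * ζ := by
          change ∑ a, (w a : ℂ) * χ (gg a) = _
          rw [hSdef]
          push_cast
          rw [sum_mul]
          refine sum_congr rfl fun a _ => ?_
          by_cases ha : w a = 0
          · rw [ha]; simp
          · rw [hz a ha]
        obtain ⟨c, rfl⟩ := hlam
        rw [e7, mul_pow, pow_mul ζ, hζ, one_pow, mul_one, ← Complex.ofReal_pow,
          Complex.ofReal_re]
      rw [sum_congr rfl e6, sum_const, nsmul_eq_mul]
    have e8 : -(S ^ s / 4) ≤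
        ∑ χ ∈ univ.filter (fun χ : AddChar G ℂ => ¬ χ ∈ Γ), (Fc χ ^ s).re := by
      have e9 : ∀ χ ∈ univ.filter (fun χ : AddChar G ℂ => ¬ χ ∈ Γ),
          -(S ^ s / (4 * Fintype.card G)) ≤ (Fc χ ^ s).re := by
        intro χ hχ
        have hχ' := (mem_filter.1 hχ).2
        have k1 : ‖Fc χ ^ s‖ ≤ S ^ s / (4 * Fintype.card G) := by
          rw [norm_pow]
          calc ‖Fc χ‖ ^ s ≤ ((1 - δ) * S) ^ s :=
                pow_le_pow_left₀ (norm_nonneg _) (hgap χ hχ') _
            _ = (1 - δ) ^ 2 * (1 - δ) ^ (s - 2) * S ^ s := by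
                rw [mul_pow, ← pow_add]
                congr 2
                omega
            _ ≤ 1 * (1 - δ) ^ (s - 2) * S ^ s := by
                have : (1 - δ) ^ 2 ≤ 1 := pow_le_one₀ hδ (by linarith)
                have h0 : 0 ≤ (1 - δ) ^ (s - 2) := pow_nonneg hδ _
                have h1 : 0 ≤ S ^ s := pow_nonneg hS.le _
                gcongr
            _ ≤ S ^ s / (4 * Fintype.card G) := by
                rw [one_mul, le_div_iff₀ (by positivity)]
                have h1 : 0 ≤ S ^ s := pow_nonneg hS.le _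
                nlinarith
        exact neg_le_of_abs_le ((Complex.abs_re_le_norm _).trans k1)
      have e10 := card_nsmul_le_sum _ _ _ e9
      refine le_trans ?_ e10
      rw [nsmul_eq_mul]
      have e11 : ((univ.filter (fun χ : AddChar G ℂ => ¬ χ ∈ Γ)).card : ℝ) ≤
          Fintype.card G := by
        have := card_le_univ (univ.filter (fun χ : AddChar G ℂ => ¬ χ ∈ Γ))
        rw [AddChar.card_eq] at this
        exact_mod_cast this
      have h1 : 0 ≤ S ^ s := pow_nonneg hS.le _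
      have e12 : ((univ.filter (fun χ : AddChar G ℂ => ¬ χ ∈ Γ)).card : ℝ) *
          (S ^ s / (4 * Fintype.card G)) ≤ S ^ s / 4 := by
        calc _ ≤ (Fintype.card G : ℝ) * (S ^ s / (4 * Fintype.card G)) := by gcongr
          _ = S ^ s / 4 := by field_simp
      linarith
    rw [e4]
    linarith
  -- upper bound for the tuples with a coincidence
  have hB : ∀ i j : Fin s, i ≠ j → Fintype.card G *
      ∑ t ∈ ((univ : Finset (Fin s → Ω)).filter (fun t => t i = t j)).filter
        (fun t => ∑ k, gg (t k) = 0), ∏ k, w (t k) ≤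
      mx * S ^ (s - 1) * ((Γ.card : ℝ) + 1 / 4) := by
    intro i j hij
    have e1 := orth gg w ((univ : Finset (Fin s → Ω)).filter (fun t => t i = t j))
    have e2 : ∀ χ : AddChar G ℂ, ∑ t ∈ (univ : Finset (Fin s → Ω)).filter (fun t => t i = t j),
        ∏ k, ((w (t k) : ℂ) * χ (gg (t k))) =
        (∑ a, ((w a : ℂ) * χ (gg a)) ^ 2) * Fc χ ^ (s - 2) :=
      fun χ => ItemA1.sum_pair i j hij (fun a => (w a : ℂ) * χ (gg a))
    simp_rw [e2] at e1
    have e3 := congrArg Complex.re e1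
    rw [← Complex.ofReal_natCast, ← Complex.ofReal_mul, Complex.ofReal_re] at e3
    rw [e3]
    refine (Complex.re_le_norm _).trans ((norm_sum_le _ _).trans ?_)
    have e4 : ∀ χ : AddChar G ℂ, ‖(∑ a, ((w a : ℂ) * χ (gg a)) ^ 2) * Fc χ ^ (s - 2)‖ ≤
        mx * S * ‖Fc χ‖ ^ (s - 2) := by
      intro χ
      rw [norm_mul, norm_pow]
      refine mul_le_mul_of_nonneg_right ?_ (pow_nonneg (norm_nonneg _) _)
      refine (norm_sum_le _ _).trans (le_trans (le_of_eq ?_) hw2)
      refine sum_congr rfl fun a _ => ?_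
      rw [norm_pow, norm_mul, hchi, mul_one, Complex.norm_real, Real.norm_of_nonneg (hw a)]
    refine (sum_le_sum fun χ _ => e4 χ).trans ?_
    rw [← mul_sum, ← sum_filter_add_sum_filter_not univ (fun χ => χ ∈ Γ)]
    have e5 : univ.filter (fun χ : AddChar G ℂ => χ ∈ Γ) = Γ := by
      ext χ
      simp
    rw [e5]
    have e6 : ∑ χ ∈ Γ, ‖Fc χ‖ ^ (s - 2) ≤ Γ.card * S ^ (s - 2) := by
      refine (sum_le_sum fun χ _ => pow_le_pow_left₀ (norm_nonneg _) (hFle χ) _).trans ?_
      rw [sum_const, nsmul_eq_mul]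
    have e7 : ∑ χ ∈ univ.filter (fun χ : AddChar G ℂ => ¬ χ ∈ Γ), ‖Fc χ‖ ^ (s - 2) ≤
        1 / 4 * S ^ (s - 2) := by
      have e8 : ∀ χ ∈ univ.filter (fun χ : AddChar G ℂ => ¬ χ ∈ Γ), ‖Fc χ‖ ^ (s - 2) ≤
          S ^ (s - 2) / (4 * Fintype.card G) := by
        intro χ hχ
        have hχ' := (mem_filter.1 hχ).2
        calc ‖Fc χ‖ ^ (s - 2) ≤ ((1 - δ) * S) ^ (s - 2) :=
              pow_le_pow_left₀ (norm_nonneg _) (hgap χ hχ') _
          _ = (1 - δ) ^ (s - 2) * S ^ (s - 2) := by rw [mul_pow]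
          _ ≤ S ^ (s - 2) / (4 * Fintype.card G) := by
              rw [le_div_iff₀ (by positivity)]
              have h1 : 0 ≤ S ^ (s - 2) := pow_nonneg hS.le _
              nlinarith
      refine (sum_le_card_nsmul _ _ _ e8).trans ?_
      rw [nsmul_eq_mul]
      have e11 : ((univ.filter (fun χ : AddChar G ℂ => ¬ χ ∈ Γ)).card : ℝ) ≤
          Fintype.card G := by
        have := card_le_univ (univ.filter (fun χ : AddChar G ℂ => ¬ χ ∈ Γ))
        rw [AddChar.card_eq] at this
        exact_mod_cast this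
      have h1 : 0 ≤ S ^ (s - 2) := pow_nonneg hS.le _
      calc _ ≤ (Fintype.card G : ℝ) * (S ^ (s - 2) / (4 * Fintype.card G)) := by gcongr
        _ = 1 / 4 * S ^ (s - 2) := by field_simp
    have e9 : S ^ (s - 1) = S * S ^ (s - 2) := by
      rw [← pow_succ']
      congr 1
      omega
    calc mx * S * (∑ χ ∈ Γ, ‖Fc χ‖ ^ (s - 2) +
          ∑ χ ∈ univ.filter (fun χ : AddChar G ℂ => ¬ χ ∈ Γ), ‖Fc χ‖ ^ (s - 2)) ≤
          mx * S * (Γ.card * S ^ (s - 2) + 1 / 4 * S ^ (s - 2)) := by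
            have : 0 ≤ mx * S := mul_nonneg hmx0 hS.le
            gcongr
      _ = mx * S ^ (s - 1) * ((Γ.card : ℝ) + 1 / 4) := by rw [e9]; ring
  -- every tuple with sum zero and positive weight has a coincidence
  have hW0 : ∀ t : Fin s → Ω, 0 ≤ ∏ k, w (t k) := fun t => prod_nonneg fun k _ => hw _
  have hcoin : 2 * ∑ t ∈ (univ : Finset (Fin s → Ω)).filter (fun t => ∑ k, gg (t k) = 0),
      ∏ k, w (t k) ≤
      ∑ p ∈ (univ : Finset (Fin s × Fin s)).filter (fun p => p.1 ≠ p.2),
        ∑ t ∈ ((univ : Finset (Fin s → Ω)).filter (fun t => t p.1 = t p.2)).filter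
        (fun t => ∑ k, gg (t k) = 0), ∏ k, w (t k) := by
    have e1 : ∀ p : Fin s × Fin s, ∑ t ∈ ((univ : Finset (Fin s → Ω)).filter
        (fun t => t p.1 = t p.2)).filter (fun t => ∑ k, gg (t k) = 0), ∏ k, w (t k) =
        ∑ t ∈ (univ : Finset (Fin s → Ω)).filter (fun t => ∑ k, gg (t k) = 0),
          if t p.1 = t p.2 then ∏ k, w (t k) else 0 := by
      intro p
      rw [← sum_filter, filter_filter, filter_filter]
      refine sum_congr ?_ fun _ _ => rfl
      ext t
      simp only [mem_filter, mem_univ, true_and]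
      exact and_comm
    simp_rw [e1]
    rw [sum_comm, mul_sum]
    refine sum_le_sum fun t ht => ?_
    have ht0 := (mem_filter.1 ht).2
    by_cases hW : ∏ k, w (t k) = 0
    · rw [hW]
      simp
    have hinj : ¬ Function.Injective t := by
      intro hi
      apply hcon
      refine ⟨univ.image t, ?_, ?_, ?_⟩
      · rw [card_image_of_injective _ hi, card_univ, Fintype.card_fin]
      · intro a ha
        obtain ⟨k, _, rfl⟩ := mem_image.1 ha
        exact fun h0 => hW (prod_eq_zero (mem_univ k) h0)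
      · rw [sum_image (fun x _ y _ h => hi h)]
        exact ht0
    rw [Function.Injective] at hinj
    push Not at hinj
    obtain ⟨i, j, htij, hij⟩ := hinj
    have hsub : ({(i, j), (j, i)} : Finset (Fin s × Fin s)) ⊆
        (univ : Finset (Fin s × Fin s)).filter (fun p => p.1 ≠ p.2) := by
      intro p hp
      rw [mem_insert, mem_singleton] at hp
      rcases hp with rfl | rfl
      · exact mem_filter.2 ⟨mem_univ _, hij⟩
      · exact mem_filter.2 ⟨mem_univ _, hij.symm⟩
    refine le_trans (le_of_eq ?_) (sum_le_sum_of_subset_of_nonneg hsub fun p _ _ => ?_)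
    · rw [Finset.sum_pair (by
        intro h
        exact hij (Prod.ext_iff.1 h).1), if_pos htij, if_pos htij.symm]
      ring
    · split_ifs
      · exact hW0 t
      · exact le_rfl
  -- conclusion
  have hG1 : (1 : ℝ) ≤ Γ.card := by
    have : 0 < Γ.card := card_pos.2 ⟨1, h1Γ⟩
    exact_mod_cast this
  have hfin : Fintype.card G * (2 * ∑ t ∈ (univ : Finset (Fin s → Ω)).filter
      (fun t => ∑ k, gg (t k) = 0), ∏ k, w (t k)) ≤
      (s : ℝ) ^ 2 * (mx * S ^ (s - 1) * ((Γ.card : ℝ) + 1 / 4)) := by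
    refine (mul_le_mul_of_nonneg_left hcoin hcard.le).trans ?_
    rw [mul_sum]
    refine (sum_le_card_nsmul _ _ _ fun p hp => hB p.1 p.2 (mem_filter.1 hp).2).trans ?_
    rw [nsmul_eq_mul]
    have h0 : 0 ≤ mx * S ^ (s - 1) * ((Γ.card : ℝ) + 1 / 4) := by positivity
    refine mul_le_mul_of_nonneg_right ?_ h0
    have h1 := card_le_univ ((univ : Finset (Fin s × Fin s)).filter (fun p => p.1 ≠ p.2))
    rw [Fintype.card_prod, Fintype.card_fin] at h1
    have h2 : (((univ : Finset (Fin s × Fin s)).filter (fun p => p.1 ≠ p.2)).card : ℝ) ≤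
        ((s * s : ℕ) : ℝ) := by exact_mod_cast h1
    rw [sq]
    push_cast at h2
    exact h2
  have h10 : (s : ℝ) ^ 2 * (mx * S ^ (s - 1) * ((Γ.card : ℝ) + 1 / 4)) ≤
      S ^ s * ((Γ.card : ℝ) + 1 / 4) := by
    have e9 : S ^ s = S * S ^ (s - 1) := by
      rw [← pow_succ']
      congr 1
      omega
    have h0 : 0 ≤ S ^ (s - 1) * ((Γ.card : ℝ) + 1 / 4) := by
      have := pow_nonneg hS.le (s - 1)
      positivity
    calc (s : ℝ) ^ 2 * (mx * S ^ (s - 1) * ((Γ.card : ℝ) + 1 / 4)) =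
          ((s : ℝ) ^ 2 * mx) * (S ^ (s - 1) * ((Γ.card : ℝ) + 1 / 4)) := by ring
      _ ≤ S * (S ^ (s - 1) * ((Γ.card : ℝ) + 1 / 4)) := mul_le_mul_of_nonneg_right hmxs h0
      _ = S ^ s * ((Γ.card : ℝ) + 1 / 4) := by rw [e9]; ring
  have h11 : 0 < S ^ s := pow_pos hS _
  nlinarith

end Pool.Agent.Work.MP_e0aece_nt.Sq
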