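import Pool.Agent.Work.MP_e0aece_nt.Bd.B02

/-!
# A3: closure of the expansions under multiplication by `1 + Re (conj θ ψ)`
-/

namespace Pool.Agent.Work.MP_e0aece_nt.Sq

open Finset

namespace ItemA3

variable {ι : Type} [Fintype ι] [DecidableEq ι] {H : ι → Type} [∀ i, AddCommGroup (H i)]
  [∀ i, Fintype (H i)]

/-- An expansion indexed by any finite type. -/
theorem expan_of {g : Finset ι → ∀ i, H i} {lam D : ℕ} {B I : Finset ι} {F : Finset ι → ℝ}
    {τ : Type} [Fintype τ] (c : τ → ℂ) (φ : τ → ∀ i, AddChar (H i) ℂ)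
    (h1 : ∀ t, ∃ i ∈ B \ I, φ t i ^ lam ≠ 1) (h2 : (∑ t, ‖c t‖) ≤ 2 ^ D - 1)
    (h3 : ∀ A, (F A : ℂ) = 1 + ∑ t, c t * ev g (fun i => φ t i ^ lam) A) :
    Expan g lam B I F D := by
  let e := Fintype.equivFin τ
  refine ⟨Fintype.card τ, fun t => c (e.symm t), fun t => φ (e.symm t), fun t => h1 _, ?_, ?_⟩
  · rw [Equiv.sum_comp e.symm fun t => ‖c t‖]
    exact h2
  · intro A
    rw [h3 A]
    congr 1
    rw [Equiv.sum_comp e.symm fun t => c t * ev g (fun i => φ t i ^ lam) A]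

theorem ev_mul (g : Finset ι → ∀ i, H i) (ψ χ : ∀ i, AddChar (H i) ℂ) (A : Finset ι) :
    ev g (fun i => ψ i * χ i) A = ev g ψ A * ev g χ A := by
  simp only [ev, AddChar.mul_apply, prod_mul_distrib]

theorem ev_inv (g : Finset ι → ∀ i, H i) (ψ : ∀ i, AddChar (H i) ℂ) (A : Finset ι) :
    ev g (fun i => (ψ i)⁻¹) A = (starRingEnd ℂ) (ev g ψ A) := by
  simp only [ev, map_prod]
  exact prod_congr rfl fun i _ => by rw [AddChar.inv_apply, AddChar.map_neg_eq_conj]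

theorem norm_ev (g : Finset ι → ∀ i, H i) (ψ : ∀ i, AddChar (H i) ℂ) (A : Finset ι) :
    ‖ev g ψ A‖ = 1 := by
  simp only [ev, norm_prod, AddChar.norm_apply, prod_const_one]

theorem re_expand (θ ψ : ℂ) : ((((starRingEnd ℂ) θ * ψ).re : ℝ) : ℂ) =
    (1 / 2) * (starRingEnd ℂ) θ * ψ + (1 / 2) * θ * (starRingEnd ℂ) ψ := by
  rw [Complex.re_eq_add_conj]
  simp only [map_mul, Complex.conj_conj]
  ring

end ItemA3

open ItemA3 in
theorem claimA3 : ClaimA3 := by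
  intro ι _ _ H _ _ g lam D B I F φ θ q hIB hExp hq hφq hφB hθ
  obtain ⟨n, c, Φ, hΦ, hc, hF⟩ := hExp
  have hqI : q ∉ I := fun h => hq (hIB h)
  have hwit : q ∈ insert q B \ I := mem_sdiff.2 ⟨mem_insert_self _ _, hqI⟩
  have hsub : ∀ i ∈ B \ I, i ∈ insert q B \ I := fun i hi =>
    mem_sdiff.2 ⟨mem_insert_of_mem (mem_sdiff.1 hi).1, (mem_sdiff.1 hi).2⟩
  have hinv : ∀ i, (φ i)⁻¹ ^ lam = (φ i ^ lam)⁻¹ := fun i => inv_pow _ _
  let τ : Type := (Fin n ⊕ (Fin n ⊕ Fin n)) ⊕ Bool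
  let c' : τ → ℂ := Sum.elim
    (Sum.elim c (Sum.elim (fun t => c t * ((1 / 2) * (starRingEnd ℂ) θ))
      (fun t => c t * ((1 / 2) * θ))))
    (fun b => if b then (1 / 2) * θ else (1 / 2) * (starRingEnd ℂ) θ)
  let Φ' : τ → ∀ i, AddChar (H i) ℂ := Sum.elim
    (Sum.elim Φ (Sum.elim (fun t i => Φ t i * φ i) (fun t i => Φ t i * (φ i)⁻¹)))
    (fun b i => if b then (φ i)⁻¹ else φ i)
  refine expan_of (τ := τ) c' Φ' ?_ ?_ ?_
  · rintro ((t | t | t) | b)
    · obtain ⟨i, hi, h⟩ := hΦ t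
      exact ⟨i, hsub i hi, h⟩
    · obtain ⟨i, hi, h⟩ := hΦ t
      refine ⟨i, hsub i hi, ?_⟩
      change (Φ t i * φ i) ^ lam ≠ 1
      rw [mul_pow, hφB i (mem_sdiff.1 hi).1, mul_one]
      exact h
    · obtain ⟨i, hi, h⟩ := hΦ t
      refine ⟨i, hsub i hi, ?_⟩
      change (Φ t i * (φ i)⁻¹) ^ lam ≠ 1
      rw [mul_pow, hinv, hφB i (mem_sdiff.1 hi).1, inv_one, mul_one]
      exact h
    · refine ⟨q, hwit, ?_⟩
      cases b
      · exact hφq
      · change ((φ q)⁻¹) ^ lam ≠ 1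
        rw [hinv]
        exact fun h => hφq (inv_eq_one.1 h)
  · have hn1 : ‖(1 / 2 : ℂ) * (starRingEnd ℂ) θ‖ = 1 / 2 := by
      rw [norm_mul, RCLike.norm_conj, hθ]
      norm_num
    have hn2 : ‖(1 / 2 : ℂ) * θ‖ = 1 / 2 := by
      rw [norm_mul, hθ]
      norm_num
    simp only [τ, c', Fintype.sum_sum_type, Sum.elim_inl, Sum.elim_inr, norm_mul (c _), hn1, hn2,
      Fintype.sum_bool, if_true, Bool.false_eq_true, if_false, ← sum_mul]
    rw [pow_succ]
    linarith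
  · intro A
    have e1 : ev g (fun i => (φ i)⁻¹ ^ lam) A =
        (starRingEnd ℂ) (ev g (fun i => φ i ^ lam) A) := by
      simp only [hinv]
      exact ev_inv g _ A
    have e2 : ∀ t, ev g (fun i => (Φ t i * φ i) ^ lam) A =
        ev g (fun i => Φ t i ^ lam) A * ev g (fun i => φ i ^ lam) A := by
      intro t
      simp only [mul_pow]
      exact ev_mul g _ _ A
    have e3 : ∀ t, ev g (fun i => (Φ t i * (φ i)⁻¹) ^ lam) A =
        ev g (fun i => Φ t i ^ lam) A * (starRingEnd ℂ) (ev g (fun i => φ i ^ lam) A) := by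
      intro t
      simp only [mul_pow]
      rw [ev_mul, e1]
    push_cast
    rw [hF A, re_expand]
    simp only [τ, c', Φ', Fintype.sum_sum_type, Sum.elim_inl, Sum.elim_inr,
      Fintype.sum_bool, if_true, Bool.false_eq_true, if_false, e1, e2, e3]
    have s1 : ∑ t, c t * (1 / 2 * (starRingEnd ℂ) θ) *
        (ev g (fun i => Φ t i ^ lam) A * ev g (fun i => φ i ^ lam) A) =
        (∑ t, c t * ev g (fun i => Φ t i ^ lam) A) *
          (1 / 2 * (starRingEnd ℂ) θ * ev g (fun i => φ i ^ lam) A) := by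
      rw [sum_mul]
      exact sum_congr rfl fun t _ => by ring
    have s2 : ∑ t, c t * (1 / 2 * θ) * (ev g (fun i => Φ t i ^ lam) A *
          (starRingEnd ℂ) (ev g (fun i => φ i ^ lam) A)) =
        (∑ t, c t * ev g (fun i => Φ t i ^ lam) A) *
          (1 / 2 * θ * (starRingEnd ℂ) (ev g (fun i => φ i ^ lam) A)) := by
      rw [sum_mul]
      exact sum_congr rfl fun t _ => by ring
    rw [s1, s2]
    ring

end Pool.Agent.Work.MP_e0aece_nt.Sq
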