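import Pool.Agent.Work.MP_e0aece_nt.Bd.B02

/-!
# A4: the increment step for a biased `lam`-th power character
-/

namespace Pool.Agent.Work.MP_e0aece_nt.Sq

open Finset

namespace ItemA4

variable {ι : Type} [Fintype ι] [DecidableEq ι] {H : ι → Type} [∀ i, AddCommGroup (H i)]
  [∀ i, Fintype (H i)]

theorem norm_ev (g : Finset ι → ∀ i, H i) (ψ : ∀ i, AddChar (H i) ℂ) (A : Finset ι) :
    ‖ev g ψ A‖ = 1 := by
  simp only [ev, norm_prod, AddChar.norm_apply, prod_const_one]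

theorem tors_mono (g : Finset ι → ∀ i, H i) (lam : ℕ) {w w' : Finset ι → ℝ}
    (h : ∀ A, w' A ≠ 0 → w A ≠ 0) :
    Nat.card (torsConst g lam w) ≤ Nat.card (torsConst g lam w') := by
  apply Nat.card_mono (Set.toFinite _)
  rintro χ ⟨h1, h2⟩
  exact ⟨h1, fun A A' hA hA' => h2 A A' (h A hA) (h A' hA')⟩

/-- The inequality of the invariant after a step. -/
theorem ineq_step {n b y : ℕ} {κ S S' : ℝ} {j : ℕ}
    (h : (2 : ℝ) ^ n * (6 / 5) ^ b * κ ^ j ≤ S * 2 ^ b * 2 ^ y)
    (hS : (3 / 5) * S ≤ S') :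
    (2 : ℝ) ^ n * (6 / 5) ^ (b + 1) * κ ^ j ≤ S' * 2 ^ (b + 1) * 2 ^ y := by
  have h1 : (0 : ℝ) < 2 ^ b * 2 ^ y := by positivity
  calc (2 : ℝ) ^ n * (6 / 5) ^ (b + 1) * κ ^ j
      = (6 / 5) * ((2 : ℝ) ^ n * (6 / 5) ^ b * κ ^ j) := by rw [pow_succ]; ring
    _ ≤ (6 / 5) * (S * 2 ^ b * 2 ^ y) := by gcongr
    _ = ((3 / 5) * S) * (2 * (2 ^ b * 2 ^ y)) := by ring
    _ ≤ S' * (2 * (2 ^ b * 2 ^ y)) := by gcongr
    _ = S' * 2 ^ (b + 1) * 2 ^ y := by rw [pow_succ]; ring

end ItemA4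

open ItemA4 in
theorem claimA4 (hA3 : ClaimA3) : ClaimA4 := by
  classical
  intro ι _ _ H _ _ g lam y J C B I w j φ hy hyJ hSt hjJ hφB hφex hbias
  obtain ⟨hIB, ⟨F, D, hD, hExp, hF, hw⟩, hsupp, hineq, htors⟩ := hSt
  obtain ⟨q, hq⟩ := hφex
  have hqB : q ∉ B := fun h => hq (hφB q h)
  set ψ : Finset ι → ℂ := fun A => ev g (fun i => φ i ^ lam) A with hψ
  have hψn : ∀ A, ‖ψ A‖ = 1 := fun A => norm_ev g _ A
  set S : ℝ := ∑ A, w A with hS
  set z : ℂ := ∑ A, (w A : ℂ) * ψ A with hz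
  have hS0 : 0 ≤ S := sum_nonneg fun A _ => (hw A).1
  have hz0 : 0 < ‖z‖ := lt_of_le_of_lt (by positivity) hbias
  have hz0' : (‖z‖ : ℂ) ≠ 0 := by exact_mod_cast hz0.ne'
  set θ : ℂ := z / ‖z‖ with hθ
  have hθn : ‖θ‖ = 1 := by
    rw [hθ, norm_div, Complex.norm_real, norm_norm, div_self hz0.ne']
  have hcard : (insert q B).card = B.card + 1 := card_insert_of_notMem hqB
  have hre1 : ∀ A, ((starRingEnd ℂ) θ * ψ A).re ≤ 1 := by
    intro A
    refine (Complex.re_le_norm _).trans ?_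
    rw [norm_mul, RCLike.norm_conj, hθn, hψn, mul_one]
  have hre2 : ∀ A, -1 ≤ ((starRingEnd ℂ) θ * ψ A).re := by
    intro A
    have h1 := Complex.abs_re_le_norm ((starRingEnd ℂ) θ * ψ A)
    rw [norm_mul, RCLike.norm_conj, hθn, hψn, mul_one] at h1
    exact (abs_le.1 h1).1
  have hsumre : ∑ A, w A * ((starRingEnd ℂ) θ * ψ A).re = ‖z‖ := by
    have h1 : ((starRingEnd ℂ) θ * z).re = ‖z‖ := by
      have h2 : (starRingEnd ℂ) θ * z = (‖z‖ : ℂ) := by
        rw [hθ, map_div₀, Complex.conj_ofReal, div_mul_eq_mul_div, ← Complex.normSq_eq_conj_mul_self,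
          Complex.normSq_eq_norm_sq, div_eq_iff hz0']
        push_cast
        ring
      rw [h2, Complex.ofReal_re]
    rw [← h1, hz, mul_sum, Complex.re_sum]
    refine sum_congr rfl fun A _ => ?_
    rw [← Complex.re_ofReal_mul]
    congr 1
    ring
  set P : ℝ := ∑ A ∈ univ.filter (fun A => q ∈ A), w A with hP
  by_cases hPS : P ≤ (3 / 5) * S
  · -- the sets not containing `q`
    set w' : Finset ι → ℝ := fun A =>
      if q ∈ A then 0 else w A * (1 + ((starRingEnd ℂ) θ * ψ A).re) with hw'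
    have hww : ∀ A, w' A ≠ 0 → w A ≠ 0 ∧ q ∉ A := by
      intro A hA
      by_cases h : q ∈ A
      · simp [hw', h] at hA
      · refine ⟨fun h0 => hA ?_, h⟩
        simp [hw', h, h0]
    refine ⟨insert q B, I, w', hcard, hIB.trans (subset_insert _ _),
      ⟨fun A => F A * (1 + ((starRingEnd ℂ) θ * ψ A).re), D + 1, by omega,
        hA3 ι H g lam D B I F φ θ q hIB hExp hqB hq hφB hθn, ?_, ?_⟩, ?_, ?_, ?_⟩
    · intro A
      have h0 : 0 ≤ F A := (hw A).1.trans (hw A).2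
      have h1 := hre1 A
      calc F A * (1 + ((starRingEnd ℂ) θ * ψ A).re) ≤ F A * 2 := by gcongr; linarith
        _ ≤ 2 ^ D * 2 := by gcongr; exact hF A
        _ = 2 ^ (D + 1) := by rw [pow_succ]
    · intro A
      have h1 := hre2 A
      have h0 : 0 ≤ F A := (hw A).1.trans (hw A).2
      by_cases h : q ∈ A
      · simp only [hw', h, if_true]
        refine ⟨le_rfl, mul_nonneg h0 (by linarith)⟩
      · simp only [hw', h, if_false]
        refine ⟨mul_nonneg (hw A).1 (by linarith), ?_⟩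
        have := (hw A).2
        gcongr
        linarith
    · intro A hA
      obtain ⟨h1, h2⟩ := hww A hA
      obtain ⟨h3, h4⟩ := hsupp A h1
      refine ⟨h3, ?_⟩
      rw [inter_insert_of_notMem h2]
      exact h4
    · rw [hcard]
      refine ineq_step hineq ?_
      have h1 : ∑ A, w' A = ∑ A, w A * (1 + ((starRingEnd ℂ) θ * ψ A).re) -
          ∑ A ∈ univ.filter (fun A => q ∈ A), w A * (1 + ((starRingEnd ℂ) θ * ψ A).re) := by
        rw [eq_sub_iff_add_eq, sum_filter, ← sum_add_distrib]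
        refine sum_congr rfl fun A _ => ?_
        by_cases h : q ∈ A <;> simp [hw', h]
      have h2 : ∑ A, w A * (1 + ((starRingEnd ℂ) θ * ψ A).re) = S + ‖z‖ := by
        simp only [mul_add, mul_one, sum_add_distrib]
        rw [hsumre]
      have h3 : ∑ A ∈ univ.filter (fun A => q ∈ A), w A * (1 + ((starRingEnd ℂ) θ * ψ A).re) ≤
          2 * P := by
        rw [hP, mul_sum]
        refine sum_le_sum fun A _ => ?_
        have h4 := hre1 A
        have h5 := (hw A).1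
        nlinarith
      rw [h1, h2]
      linarith
    · exact htors.trans (tors_mono g lam fun A hA => (hww A hA).1)
  · -- the sets containing `q`
    have hPS' := not_le.1 hPS
    set w' : Finset ι → ℝ := fun A => if q ∈ A then w A else 0 with hw'
    have hww : ∀ A, w' A ≠ 0 → w A ≠ 0 ∧ q ∈ A := by
      intro A hA
      by_cases h : q ∈ A
      · refine ⟨fun h0 => hA ?_, h⟩
        simp [hw', h0]
      · simp [hw', h] at hA
    refine ⟨insert q B, insert q I, w', hcard, insert_subset_insert _ hIB,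
      ⟨F, D, by omega, ?_, hF, ?_⟩, ?_, ?_, ?_⟩
    · obtain ⟨n, c, Φ, hΦ, hc, hFe⟩ := hExp
      refine ⟨n, c, Φ, fun t => ?_, hc, hFe⟩
      obtain ⟨i, hi, h⟩ := hΦ t
      rw [mem_sdiff] at hi
      refine ⟨i, mem_sdiff.2 ⟨mem_insert_of_mem hi.1, ?_⟩, h⟩
      rw [mem_insert, not_or]
      exact ⟨fun h' => hqB (h' ▸ hi.1), hi.2⟩
    · intro A
      have h0 : 0 ≤ F A := (hw A).1.trans (hw A).2
      by_cases h : q ∈ A
      · simp only [hw', h, if_true]
        exact hw A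
      · simp only [hw', h, if_false]
        exact ⟨le_rfl, h0⟩
    · intro A hA
      obtain ⟨h1, h2⟩ := hww A hA
      obtain ⟨h3, h4⟩ := hsupp A h1
      refine ⟨h3, ?_⟩
      rw [inter_insert_of_mem h2, h4]
    · rw [hcard]
      refine ineq_step hineq ?_
      have h1 : ∑ A, w' A = P := by
        rw [hP, sum_filter]
      rw [h1]
      linarith
    · exact htors.trans (tors_mono g lam fun A hA => (hww A hA).1)

end Pool.Agent.Work.MP_e0aece_nt.Sq
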