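import Pool.Agent.Work.MP_e0aece_nt.Bd.B02

/-!
# Item A7
-/

namespace Pool.Agent.Work.MP_e0aece_nt.Sq

open Finset

namespace ItemA7

/-- for `|v| = 1`: `|1 - v| ^ 2 = 2 (1 - Re v)` -/
theorem norm_one_sub_sq (v : ℂ) (hv : ‖v‖ = 1) : ‖1 - v‖ ^ 2 = 2 * (1 - v.re) := by
  have h1 : v.re * v.re + v.im * v.im = 1 := by
    have := Complex.normSq_eq_norm_sq v
    rw [hv, Complex.normSq_apply] at this
    linarith
  rw [← Complex.normSq_eq_norm_sq, Complex.normSq_apply]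
  simp only [Complex.sub_re, Complex.one_re, Complex.sub_im, Complex.one_im]
  nlinarith [h1]

theorem norm_one_sub_pow (v : ℂ) (hv : ‖v‖ = 1) (n : ℕ) : ‖1 - v ^ n‖ ≤ n * ‖1 - v‖ := by
  induction n with
  | zero => simp
  | succ n ih =>
    have h : 1 - v ^ (n + 1) = (1 - v ^ n) + v ^ n * (1 - v) := by ring
    rw [h]
    refine (norm_add_le _ _).trans ?_
    rw [norm_mul, norm_pow, hv, one_pow, one_mul]
    push_cast
    linarith

theorem re_pow_bound (v : ℂ) (hv : ‖v‖ = 1) (n : ℕ) :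
    1 - (v ^ n).re ≤ (n : ℝ) ^ 2 * (1 - v.re) := by
  have h1 := norm_one_sub_sq v hv
  have h2 := norm_one_sub_sq (v ^ n) (by rw [norm_pow, hv, one_pow])
  have h3 := norm_one_sub_pow v hv n
  have h4 : ‖1 - v ^ n‖ ^ 2 ≤ (n * ‖1 - v‖) ^ 2 := by gcongr
  rw [mul_pow, h1, h2] at h4
  linarith

theorem exists_phase (S : ℂ) : ∃ θ : ℂ, ‖θ‖ = 1 ∧ θ * S = (‖S‖ : ℂ) := by
  by_cases hS : S = 0
  · exact ⟨1, norm_one, by simp [hS]⟩
  · have hn : (‖S‖ : ℂ) ≠ 0 := by
      rw [Ne, Complex.ofReal_eq_zero, norm_eq_zero]; exact hS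
    refine ⟨(starRingEnd ℂ S) / ‖S‖, ?_, ?_⟩
    · rw [norm_div, RCLike.norm_conj, Complex.norm_real, norm_norm, div_self]
      exact norm_ne_zero_iff.mpr hS
    · rw [div_mul_eq_mul_div, mul_comm, Complex.mul_conj, Complex.normSq_eq_norm_sq]
      push_cast
      field_simp

end ItemA7

open ItemA7 in
theorem claimA7 : ClaimA7 := by
  intro Ω _ w f lam hw hf
  obtain ⟨θ, hθ, hθS⟩ := exists_phase (∑ a, (w a : ℂ) * f a)
  have hv : ∀ a, ‖θ * f a‖ = 1 := fun a => by rw [norm_mul, hθ, hf a, one_mul]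
  have h1 : ‖∑ a, (w a : ℂ) * f a‖ = ∑ a, w a * (θ * f a).re := by
    have h := congrArg Complex.re hθS
    rw [Complex.ofReal_re] at h
    rw [← h, Finset.mul_sum, Complex.re_sum]
    apply Finset.sum_congr rfl
    intro a _
    rw [show θ * ((w a : ℂ) * f a) = (w a : ℂ) * (θ * f a) by ring, Complex.re_ofReal_mul]
  have h2 : ∑ a, w a * ((θ * f a) ^ lam).re ≤ ‖∑ a, (w a : ℂ) * f a ^ lam‖ := by
    have h3 : ‖∑ a, (w a : ℂ) * f a ^ lam‖ = ‖∑ a, (w a : ℂ) * (θ * f a) ^ lam‖ := by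
      have : ∑ a, (w a : ℂ) * (θ * f a) ^ lam = θ ^ lam * ∑ a, (w a : ℂ) * f a ^ lam := by
        rw [Finset.mul_sum]
        apply Finset.sum_congr rfl
        intro a _
        rw [mul_pow]; ring
      rw [this, norm_mul, norm_pow, hθ, one_pow, one_mul]
    rw [h3]
    have h4 : ∑ a, w a * ((θ * f a) ^ lam).re = (∑ a, (w a : ℂ) * (θ * f a) ^ lam).re := by
      rw [Complex.re_sum]
      apply Finset.sum_congr rfl
      intro a _
      rw [Complex.re_ofReal_mul]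
    rw [h4]
    exact Complex.re_le_norm _
  calc ∑ a, w a - ‖∑ a, (w a : ℂ) * f a ^ lam‖
      ≤ ∑ a, w a - ∑ a, w a * ((θ * f a) ^ lam).re := by linarith
    _ = ∑ a, w a * (1 - ((θ * f a) ^ lam).re) := by
        rw [← Finset.sum_sub_distrib]
        apply Finset.sum_congr rfl
        intro a _
        ring
    _ ≤ ∑ a, w a * ((lam : ℝ) ^ 2 * (1 - (θ * f a).re)) := by
        apply Finset.sum_le_sum
        intro a _
        exact mul_le_mul_of_nonneg_left (re_pow_bound _ (hv a) lam) (hw a)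
    _ = (lam : ℝ) ^ 2 * (∑ a, w a - ‖∑ a, (w a : ℂ) * f a‖) := by
        rw [h1, ← Finset.sum_sub_distrib, Finset.mul_sum]
        apply Finset.sum_congr rfl
        intro a _
        ring

end Pool.Agent.Work.MP_e0aece_nt.Sq
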