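import Pool.Agent.Work.MP_e0aece_nt.Bd.B02

/-!
# Item A8
-/

namespace Pool.Agent.Work.MP_e0aece_nt.Sq

open Finset

namespace ItemA8

/-- a root of unity different from one has real part at most `1 - 8 / n ^ 2` -/
theorem re_root (n : ℕ) (hn : 1 ≤ n) (ζ : ℂ) (h : ζ ^ n = 1) (h1 : ζ ≠ 1) :
    ζ.re ≤ 1 - 8 / (n : ℝ) ^ 2 := by
  have hn0 : n ≠ 0 := by omega
  have hnpos : (0 : ℝ) < n := by exact_mod_cast hn
  haveI : NeZero n := ⟨hn0⟩
  obtain ⟨k, hk, hk'⟩ : ∃ k < n, Complex.exp (2 * Real.pi * Complex.I * (k / n)) = ζ := by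
    have h0 : ζ ≠ 0 := by
      rintro rfl
      rw [zero_pow hn0] at h
      exact zero_ne_one h
    have := (Complex.mem_rootsOfUnity n (Units.mk0 ζ h0)).mp (by
      rw [mem_rootsOfUnity]
      ext
      simpa using h)
    simpa using this
  have hk0 : k ≠ 0 := by
    rintro rfl
    apply h1
    rw [← hk']
    simp
  have hre : ζ.re = Real.cos (2 * (Real.pi * k / n)) := by
    rw [← hk']
    have : (2 * Real.pi * Complex.I * (k / n) : ℂ) = ((2 * (Real.pi * k / n) : ℝ) : ℂ) * Complex.I := by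
      push_cast
      ring
    rw [this, Complex.exp_ofReal_mul_I_re]
  rw [hre, Real.cos_two_mul']
  have hpi := Real.pi_pos
  have hkpos : (1 : ℝ) ≤ k := by exact_mod_cast Nat.one_le_iff_ne_zero.mpr hk0
  have hkn : (k : ℝ) + 1 ≤ n := by exact_mod_cast hk
  have hsin : 2 / (n : ℝ) ≤ Real.sin (Real.pi * k / n) := by
    by_cases hc : Real.pi * k / n ≤ Real.pi / 2
    · have h3 := Real.mul_le_sin (show 0 ≤ Real.pi * k / n by positivity) hc
      refine le_trans ?_ h3
      rw [show 2 / Real.pi * (Real.pi * k / n) = 2 * k / n by field_simp]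
      gcongr
      linarith
    · push Not at hc
      rw [← Real.sin_pi_sub]
      have h4 : Real.pi - Real.pi * k / n = Real.pi * (n - k) / n := by
        field_simp
      have h3 := Real.mul_le_sin (show 0 ≤ Real.pi - Real.pi * k / n by
        rw [h4]
        apply div_nonneg _ hnpos.le
        apply mul_nonneg hpi.le
        linarith) (by linarith)
      refine le_trans ?_ h3
      rw [h4, show 2 / Real.pi * (Real.pi * ((n : ℝ) - k) / n) = 2 * (n - k) / n by field_simp]
      gcongr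
      linarith
  have h5 : (2 / (n : ℝ)) ^ 2 ≤ Real.sin (Real.pi * k / n) ^ 2 := by gcongr
  have h6 : Real.cos (Real.pi * k / n) ^ 2 = 1 - Real.sin (Real.pi * k / n) ^ 2 := by
    have := Real.sin_sq_add_cos_sq (Real.pi * k / n)
    linarith
  rw [h6]
  have h7 : (2 / (n : ℝ)) ^ 2 = 4 / (n : ℝ) ^ 2 := by rw [div_pow]; norm_num
  have h8 : 8 / (n : ℝ) ^ 2 = 2 * (4 / (n : ℝ) ^ 2) := by ring
  rw [h8]
  linarith

/-- the real part of `f a * conj (f b)` -/
theorem re_mul_conj (n : ℕ) (hn : 1 ≤ n) (x y : ℂ) (hx : x ^ n = 1) (hy : y ^ n = 1)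
    (hxy : x ≠ y) : (x * (starRingEnd ℂ) y).re ≤ 1 - 8 / (n : ℝ) ^ 2 := by
  apply re_root n hn
  · rw [mul_pow, ← map_pow, hx, hy, map_one, one_mul]
  · intro h
    apply hxy
    have hy1 : y * (starRingEnd ℂ) y = 1 := by
      have : ‖y‖ = 1 := by
        have h2 := congrArg norm hy
        rw [norm_pow, norm_one] at h2
        exact (pow_eq_one_iff_of_nonneg (norm_nonneg _) (by omega)).mp h2
      rw [Complex.mul_conj, Complex.normSq_eq_norm_sq, this]
      norm_num
    have h0 : (starRingEnd ℂ) y ≠ 0 := by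
      intro h3
      rw [h3, mul_zero] at hy1
      exact zero_ne_one hy1
    exact mul_right_cancel₀ h0 (h.trans hy1.symm)

end ItemA8

open ItemA8 in
theorem claimA8 : ClaimA8 := by
  intro Ω _ _ w f lam κ hlam hw hf hκ0 hκ hζ
  set S : ℝ := ∑ a, w a with hS
  have hS0 : 0 ≤ S := Finset.sum_nonneg fun a _ => hw a
  have hl1 : (1 : ℝ) ≤ lam := by exact_mod_cast hlam
  have hl2 : (1 : ℝ) ≤ (lam : ℝ) ^ 2 := one_le_pow₀ hl1
  have hlpos : (0 : ℝ) < (lam : ℝ) ^ 2 := by positivity
  have hq : 0 ≤ 1 - 4 * κ / (lam : ℝ) ^ 2 := by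
    have : 4 * κ / (lam : ℝ) ^ 2 ≤ 1 := by
      rw [div_le_one hlpos]
      linarith
    linarith
  -- the mass off the level of a
  have hoff : ∀ a, κ * S ≤ ∑ b, if f a = f b then 0 else w b := by
    intro a
    have h1 : ∑ b, (if f a = f b then 0 else w b) = S - ∑ b ∈ univ.filter (fun b => f b = f a), w b := by
      rw [Finset.sum_filter, hS, ← Finset.sum_sub_distrib]
      apply Finset.sum_congr rfl
      intro b _
      by_cases h : f a = f b
      · rw [if_pos h, if_pos h.symm, sub_self]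
      · rw [if_neg h, if_neg (fun h' => h h'.symm), sub_zero]
    rw [h1]
    have := hζ (f a)
    linarith
  have hsq : ‖∑ a, (w a : ℂ) * f a‖ ^ 2 ≤ (1 - 8 * κ / (lam : ℝ) ^ 2) * S ^ 2 := by
    have e1 : ‖∑ a, (w a : ℂ) * f a‖ ^ 2 =
        ∑ a, ∑ b, w a * w b * (f a * (starRingEnd ℂ) (f b)).re := by
      have h2 : ((‖∑ a, (w a : ℂ) * f a‖ ^ 2 : ℝ) : ℂ) =
          (∑ a, (w a : ℂ) * f a) * (starRingEnd ℂ) (∑ a, (w a : ℂ) * f a) := by
        rw [Complex.mul_conj, Complex.normSq_eq_norm_sq]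
      have h3 := congrArg Complex.re h2
      rw [Complex.ofReal_re] at h3
      rw [h3, map_sum, Finset.sum_mul_sum, Complex.re_sum]
      apply Finset.sum_congr rfl
      intro a _
      rw [Complex.re_sum]
      apply Finset.sum_congr rfl
      intro b _
      rw [map_mul, Complex.conj_ofReal, show (w a : ℂ) * f a * ((w b : ℂ) * (starRingEnd ℂ) (f b)) =
        ((w a * w b : ℝ) : ℂ) * (f a * (starRingEnd ℂ) (f b)) by push_cast; ring,
        Complex.re_ofReal_mul]
    rw [e1]
    have e2 : ∀ a b, w a * w b * (f a * (starRingEnd ℂ) (f b)).re ≤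
        w a * (w b - 8 / (lam : ℝ) ^ 2 * (if f a = f b then 0 else w b)) := by
      intro a b
      by_cases ha : w a = 0
      · rw [ha]; simp
      by_cases hb : w b = 0
      · rw [hb]; simp
      have hfa := hf a ha
      have hfb := hf b hb
      have hab : 0 ≤ w a * w b := mul_nonneg (hw a) (hw b)
      by_cases h : f a = f b
      · rw [if_pos h, mul_zero, sub_zero]
        have h4 : (f a * (starRingEnd ℂ) (f b)).re ≤ 1 := by
          have hna : ∀ z : ℂ, z ^ lam = 1 → ‖z‖ = 1 := by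
            intro z hz
            have h2 := congrArg norm hz
            rw [norm_pow, norm_one] at h2
            exact (pow_eq_one_iff_of_nonneg (norm_nonneg _) (by omega)).mp h2
          refine (Complex.re_le_norm _).trans ?_
          rw [norm_mul, RCLike.norm_conj, hna _ hfa, hna _ hfb, one_mul]
        calc w a * w b * (f a * (starRingEnd ℂ) (f b)).re ≤ w a * w b * 1 :=
              mul_le_mul_of_nonneg_left h4 hab
          _ = w a * w b := mul_one _
      · rw [if_neg h]
        calc w a * w b * (f a * (starRingEnd ℂ) (f b)).re ≤ w a * w b * (1 - 8 / (lam : ℝ) ^ 2) :=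
              mul_le_mul_of_nonneg_left (re_mul_conj lam hlam _ _ hfa hfb h) hab
          _ = w a * (w b - 8 / (lam : ℝ) ^ 2 * w b) := by ring
    calc ∑ a, ∑ b, w a * w b * (f a * (starRingEnd ℂ) (f b)).re
        ≤ ∑ a, ∑ b, w a * (w b - 8 / (lam : ℝ) ^ 2 * (if f a = f b then 0 else w b)) :=
          Finset.sum_le_sum fun a _ => Finset.sum_le_sum fun b _ => e2 a b
      _ = ∑ a, w a * (S - 8 / (lam : ℝ) ^ 2 * ∑ b, (if f a = f b then 0 else w b)) := by
          apply Finset.sum_congr rfl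
          intro a _
          rw [← Finset.mul_sum, Finset.sum_sub_distrib, ← Finset.mul_sum]
      _ ≤ ∑ a, w a * (S - 8 / (lam : ℝ) ^ 2 * (κ * S)) := by
          apply Finset.sum_le_sum
          intro a _
          apply mul_le_mul_of_nonneg_left _ (hw a)
          have : 8 / (lam : ℝ) ^ 2 * (κ * S) ≤
              8 / (lam : ℝ) ^ 2 * ∑ b, (if f a = f b then 0 else w b) :=
            mul_le_mul_of_nonneg_left (hoff a) (by positivity)
          linarith
      _ = (1 - 8 * κ / (lam : ℝ) ^ 2) * S ^ 2 := by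
          rw [← Finset.sum_mul, ← hS]
          ring
  have hfin : ‖∑ a, (w a : ℂ) * f a‖ ^ 2 ≤ ((1 - 4 * κ / (lam : ℝ) ^ 2) * S) ^ 2 := by
    refine hsq.trans ?_
    have h9 : 1 - 8 * κ / (lam : ℝ) ^ 2 ≤ (1 - 4 * κ / (lam : ℝ) ^ 2) ^ 2 := by
      have : (1 - 4 * κ / (lam : ℝ) ^ 2) ^ 2 =
        1 - 8 * κ / (lam : ℝ) ^ 2 + (4 * κ / (lam : ℝ) ^ 2) ^ 2 := by ring
      rw [this]
      have := sq_nonneg (4 * κ / (lam : ℝ) ^ 2)
      linarith
    rw [mul_pow]
    exact mul_le_mul_of_nonneg_right h9 (sq_nonneg _)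
  exact le_of_sq_le_sq hfin (mul_nonneg hq hS0)

end Pool.Agent.Work.MP_e0aece_nt.Sq
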