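import Pool.Agent.Work.MP_e0aece_nt.Bd.B06

/-!
Item D5: the choice of the parameters `J` and `s` for the abstract theorem.
-/

namespace Pool.Agent.Work.MP_e0aece_nt.Sq.ItemD5

open Finset

/-- For large `M` the logarithm is large and its powers are small compared with `M`. -/
theorem big (K : ℝ) (d : ℕ) : ∃ M0 : ℕ, ∀ M : ℕ, M0 ≤ M →
    K ≤ Real.log M ∧ (Real.log M) ^ d ≤ M := by
  have h1 := Real.tendsto_log_atTop.eventually_ge_atTop K
  have h2 : ∀ᶠ x : ℝ in Filter.atTop, (Real.log x) ^ d ≤ x := by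
    have h3 := (Real.isLittleO_pow_log_id_atTop (n := d)).bound (show (0 : ℝ) < 1 by norm_num)
    filter_upwards [h3, Filter.eventually_ge_atTop (1 : ℝ)] with x hx hx1
    simp only [id, one_mul, Real.norm_eq_abs] at hx
    calc (Real.log x) ^ d ≤ |(Real.log x) ^ d| := le_abs_self _
      _ ≤ |x| := hx
      _ = x := abs_of_nonneg (by linarith)
  have h4 := (tendsto_natCast_atTop_atTop (R := ℝ)).eventually (h1.and h2)
  obtain ⟨M0, hM0⟩ := Filter.eventually_atTop.mp h4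
  exact ⟨M0, hM0⟩

theorem log2_bound (M : ℕ) (hM : 2 ≤ M) : (Nat.log 2 M : ℝ) ≤ 3 / 2 * Real.log M := by
  have h1 : (2 : ℝ) ^ (Nat.log 2 M) ≤ M := by
    exact_mod_cast Nat.pow_log_le_self 2 (by omega)
  have hMpos : (0 : ℝ) < M := by positivity
  have h2 : (Nat.log 2 M : ℝ) * Real.log 2 ≤ Real.log M := by
    rw [← Real.log_pow]
    exact Real.log_le_log (by positivity) h1
  have h3 := Real.log_two_gt_d9
  have h4 : (0 : ℝ) ≤ Nat.log 2 M := by positivity
  nlinarith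

/-- The exponential inequality for `(1 - t)^(s-2)`. -/
theorem decay (t : ℝ) (n J : ℕ) (ht1 : t ≤ 1) (h : (J : ℝ) + 2 ≤ t * n) :
    (1 - t) ^ n * (4 * 2 ^ J) ≤ 1 := by
  have h1 : (1 - t) ^ n ≤ Real.exp (-(t * n)) := by
    calc (1 - t) ^ n ≤ (Real.exp (-t)) ^ n := by
          apply pow_le_pow_left₀ (by linarith)
          have := Real.add_one_le_exp (-t)
          linarith
      _ = Real.exp (-(t * n)) := by
          rw [← Real.exp_nat_mul]
          congr 1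
          ring
  have h2 : (4 : ℝ) * 2 ^ J ≤ Real.exp (J + 2) := by
    have h3 : (2 : ℝ) ≤ Real.exp 1 := by
      have := Real.exp_one_gt_d9
      linarith
    calc (4 : ℝ) * 2 ^ J = 2 ^ (J + 2) := by ring
      _ ≤ (Real.exp 1) ^ (J + 2) := pow_le_pow_left₀ (by norm_num) h3 _
      _ = Real.exp (J + 2) := by
          rw [← Real.exp_nat_mul]
          push_cast
          congr 1
          ring
  calc (1 - t) ^ n * (4 * 2 ^ J) ≤ Real.exp (-(t * n)) * Real.exp (J + 2) := by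
        apply mul_le_mul h1 h2 (by positivity) (Real.exp_pos _).le
    _ = Real.exp (-(t * n) + (J + 2)) := (Real.exp_add _ _).symm
    _ ≤ Real.exp 0 := by
        apply Real.exp_le_exp.mpr
        linarith
    _ = 1 := Real.exp_zero

/-- The bound for `s`. -/
theorem s_bound (x y l lam J s : ℝ) (hl : 10 ^ 6 ≤ l) (hy : 1 ≤ y) (hyx : y ≤ x)
    (hlam1 : 1 ≤ lam) (hlam : lam ≤ 5 * l ^ 9) (hJ0 : 0 ≤ J) (hJ : J + 2 ≤ 32 * x * l)
    (hs : s ≤ lam ^ 2 * (J * (J + 2)) / (4 * y) + 3 * lam) :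
    s * y ≤ x ^ 2 * l ^ 21 := by
  have hl0 : 0 < l := by linarith
  have hx0 : 1 ≤ x := by linarith
  have h1 : s * y ≤ lam ^ 2 * (J * (J + 2)) / 4 + 3 * lam * y := by
    have h2 := mul_le_mul_of_nonneg_right hs (show 0 ≤ y by linarith)
    have h3 : (lam ^ 2 * (J * (J + 2)) / (4 * y) + 3 * lam) * y =
        lam ^ 2 * (J * (J + 2)) / 4 + 3 * lam * y := by
      field_simp
    linarith
  have h4 : J * (J + 2) ≤ (32 * x * l) ^ 2 := by
    rw [sq]
    exact mul_le_mul (by linarith) hJ (by linarith) (by positivity)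
  have h5 : lam ^ 2 ≤ (5 * l ^ 9) ^ 2 := pow_le_pow_left₀ (by linarith) hlam 2
  have h6 : lam ^ 2 * (J * (J + 2)) ≤ (5 * l ^ 9) ^ 2 * (32 * x * l) ^ 2 :=
    mul_le_mul h5 h4 (by positivity) (by positivity)
  have h7 : (5 * l ^ 9) ^ 2 * (32 * x * l) ^ 2 = 25600 * (x ^ 2 * l ^ 20) := by ring
  have h8 : 10 ^ 6 * (x ^ 2 * l ^ 20) ≤ x ^ 2 * l ^ 21 := by
    have := mul_le_mul_of_nonneg_right hl (show 0 ≤ x ^ 2 * l ^ 20 by positivity)
    calc 10 ^ 6 * (x ^ 2 * l ^ 20) ≤ l * (x ^ 2 * l ^ 20) := this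
      _ = x ^ 2 * l ^ 21 := by ring
  have h9 : 3 * lam * y ≤ 15 * (x ^ 2 * l ^ 20) := by
    have a1 : lam * y ≤ 5 * l ^ 9 * x := mul_le_mul hlam hyx (by linarith) (by positivity)
    have a2 : l ^ 9 * x ≤ l ^ 20 * x ^ 2 := by
      apply mul_le_mul (pow_le_pow_right₀ (by linarith) (by norm_num)) _ (by positivity)
        (by positivity)
      nlinarith
    linarith
  have h10 : 0 ≤ x ^ 2 * l ^ 20 := by positivity
  linarith

end Pool.Agent.Work.MP_e0aece_nt.Sq.ItemD5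

namespace Pool.Agent.Work.MP_e0aece_nt.Sq

open Finset ItemD5

theorem claimD5 : ClaimD5 := by
  obtain ⟨M0, hM0⟩ := big (10 ^ 6) 24
  refine ⟨M0, fun M hM y hy1 hy2 lam hlam1 hlam2 => ?_⟩
  obtain ⟨hl, hl24⟩ := hM0 M hM
  obtain ⟨l, hldef⟩ : ∃ l, l = Real.log M := ⟨_, rfl⟩
  rw [← hldef] at hl hl24 hy1 hlam2
  have hl0 : 0 < l := by linarith
  have hl1 : 1 ≤ l := by linarith
  have hMpos : (0 : ℝ) < M := by
    have : 0 < l ^ 24 := by positivity
    linarith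
  obtain ⟨x, hx⟩ : ∃ x : ℝ, x = M := ⟨_, rfl⟩
  rw [← hx] at hMpos hl24 hy1
  have hlog : Real.log x = l := by rw [hx, hldef]
  -- powers of l
  have hpow : ∀ k : ℕ, k ≤ 23 → 10 ^ 6 * l ^ k ≤ x := by
    intro k hk
    calc 10 ^ 6 * l ^ k ≤ l * l ^ k := mul_le_mul_of_nonneg_right hl (by positivity)
      _ = l ^ (k + 1) := by ring
      _ ≤ l ^ 24 := pow_le_pow_right₀ hl1 (by omega)
      _ ≤ x := hl24
  have hxl : 10 ^ 6 * l ≤ x := by
    have := hpow 1 (by norm_num)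
    rwa [pow_one] at this
  have hx12 : 10 ^ 12 ≤ x := by linarith
  have hM2 : 2 ≤ M := by
    have : (2 : ℝ) ≤ M := by rw [← hx]; linarith
    exact_mod_cast this
  have hy0 : 1 ≤ y := by
    rcases Nat.eq_zero_or_pos y with h | h
    · subst h
      simp at hy2
      omega
    · exact h
  have hy0' : (1 : ℝ) ≤ y := by exact_mod_cast hy0
  have hl5 : 10 ^ 30 ≤ l ^ 5 := by
    calc (10 : ℝ) ^ 30 = (10 ^ 6) ^ 5 := by norm_num
      _ ≤ l ^ 5 := pow_le_pow_left₀ (by norm_num) hl 5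
  have hyx : (y : ℝ) * 10 ^ 30 ≤ x := by
    have := mul_le_mul_of_nonneg_left hl5 (show (0 : ℝ) ≤ y by positivity)
    linarith
  have hlam1' : (1 : ℝ) ≤ lam := by exact_mod_cast hlam1
  -- J
  obtain ⟨g, hg⟩ : ∃ g, g = Nat.log 2 M := ⟨_, rfl⟩
  have hg1 : (g : ℝ) ≤ 3 / 2 * l := by rw [hg, hldef]; exact log2_bound M hM2
  have hg2 : M < 2 ^ (g + 1) := by rw [hg]; exact Nat.lt_pow_succ_log_self (by norm_num) M
  obtain ⟨J, hJ⟩ : ∃ J : ℕ, J = M * (20 * (g + 1) + 2) := ⟨_, rfl⟩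
  have hJr : (J : ℝ) = x * (20 * (g + 1) + 2) := by rw [hJ, hx]; push_cast; ring
  have hJl : x ≤ J := by
    rw [hJr]
    have : 0 ≤ x * (20 * (g + 1) + 1) := by positivity
    linarith
  have hJu : (J : ℝ) + 2 ≤ 32 * x * l := by
    rw [hJr]
    have h1 : x * (20 * (g + 1) + 2) ≤ x * (31 * l) :=
      mul_le_mul_of_nonneg_left (by linarith) hMpos.le
    have h2 : x * 1 ≤ x * l := mul_le_mul_of_nonneg_left hl1 hMpos.le
    linarith
  have hJpos : (0 : ℝ) < J := by linarith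
  -- s
  obtain ⟨K, hK⟩ : ∃ K : ℕ, K = ⌈(lam : ℝ) * (J * (J + 2)) / (4 * y)⌉₊ + 2 := ⟨_, rfl⟩
  have hK1 : (lam : ℝ) * (J * (J + 2)) / (4 * y) + 2 ≤ K := by
    rw [hK]
    push_cast
    have := Nat.le_ceil ((lam : ℝ) * (J * (J + 2)) / (4 * y))
    linarith
  have hK2 : (K : ℝ) ≤ (lam : ℝ) * (J * (J + 2)) / (4 * y) + 3 := by
    rw [hK]
    push_cast
    have := Nat.ceil_lt_add_one (show (0 : ℝ) ≤ (lam : ℝ) * (J * (J + 2)) / (4 * y) by positivity)
    linarith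
  have hK3 : 2 ≤ K := by omega
  obtain ⟨s, hs⟩ : ∃ s : ℕ, s = lam * K := ⟨_, rfl⟩
  have hs2 : 2 ≤ s := by
    rw [hs]
    calc 2 = 1 * 2 := by norm_num
      _ ≤ lam * K := Nat.mul_le_mul hlam1 hK3
  have hsr : (s : ℝ) = lam * K := by rw [hs]; push_cast; ring
  have hsu : (s : ℝ) ≤ (lam : ℝ) ^ 2 * (J * (J + 2)) / (4 * y) + 3 * lam := by
    rw [hsr]
    have := mul_le_mul_of_nonneg_left hK2 (show (0 : ℝ) ≤ lam by positivity)
    calc (lam : ℝ) * K ≤ lam * ((lam : ℝ) * (J * (J + 2)) / (4 * y) + 3) := this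
      _ = (lam : ℝ) ^ 2 * (J * (J + 2)) / (4 * y) + 3 * lam := by ring
  have hsl : (lam : ℝ) ^ 2 * (J * (J + 2)) / (4 * y) ≤ ((s - 2 : ℕ) : ℝ) := by
    rw [Nat.cast_sub hs2, hsr]
    have := mul_le_mul_of_nonneg_left hK1 (show (0 : ℝ) ≤ lam by positivity)
    have h2 : (lam : ℝ) * ((lam : ℝ) * (J * (J + 2)) / (4 * y) + 2) =
        (lam : ℝ) ^ 2 * (J * (J + 2)) / (4 * y) + 2 * lam := by ring
    push_cast
    linarith
  have hsy : (s : ℝ) * y ≤ x ^ 2 * l ^ 21 :=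
    s_bound x y l lam J s hl hy0' (by linarith) hlam1' hlam2 hJpos.le hJu hsu
  have hsx : (s : ℝ) ≤ x ^ 3 := by
    have h1 : (s : ℝ) ≤ s * y := le_mul_of_one_le_right (by positivity) hy0'
    have h2 : l ^ 21 ≤ x := by
      have := hpow 21 (by norm_num)
      have h3 : 0 ≤ l ^ 21 := by positivity
      linarith
    have h4 : x ^ 2 * l ^ 21 ≤ x ^ 2 * x := mul_le_mul_of_nonneg_left h2 (by positivity)
    have h5 : x ^ 2 * x = x ^ 3 := by ring
    linarith
  refine ⟨J, s, ?_, ?_, ⟨K, hs⟩, hs2, ?_, ?_, ?_, ?_, ?_, ?_⟩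
  · have : ((50 * (2 * y) : ℕ) : ℝ) ≤ J := by
      push_cast
      linarith
    exact_mod_cast this
  · rw [hJ, mul_comm M, pow_mul]
    apply Nat.pow_le_pow_left
    calc 4 * M ^ 20 ≤ 4 * (2 ^ (g + 1)) ^ 20 := by
          apply Nat.mul_le_mul_left
          exact Nat.pow_le_pow_left hg2.le 20
      _ = 2 ^ (20 * (g + 1) + 2) := by
          rw [← pow_mul, pow_add, mul_comm (g + 1)]
          ring
  · apply decay
    · rw [div_le_one (by positivity)]
      push_cast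
      have h1 : (1 : ℝ) ≤ (lam : ℝ) ^ 2 := one_le_pow₀ hlam1'
      have h2 : (J : ℝ) * 1 ≤ J * (lam : ℝ) ^ 2 := mul_le_mul_of_nonneg_left h1 hJpos.le
      linarith
    · have h1 : 2 * ((2 * y : ℕ) : ℝ) / (J * (lam : ℝ) ^ 2) *
          ((lam : ℝ) ^ 2 * (J * (J + 2)) / (4 * y)) = (J : ℝ) + 2 := by
        push_cast
        field_simp
        ring
      calc (J : ℝ) + 2 = 2 * ((2 * y : ℕ) : ℝ) / (J * (lam : ℝ) ^ 2) *
          ((lam : ℝ) ^ 2 * (J * (J + 2)) / (4 * y)) := h1.symm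
        _ ≤ _ := mul_le_mul_of_nonneg_left hsl (by positivity)
  · have h1 : s ≤ M ^ 3 := by
      have : (s : ℝ) ≤ ((M ^ 3 : ℕ) : ℝ) := by push_cast; rw [← hx]; exact hsx
      exact_mod_cast this
    have h2 : s ≤ 2 ^ (3 * (g + 1)) := by
      calc s ≤ M ^ 3 := h1
        _ ≤ (2 ^ (g + 1)) ^ 3 := Nat.pow_le_pow_left hg2.le 3
        _ = 2 ^ (3 * (g + 1)) := by rw [← pow_mul, mul_comm]
    calc s ^ 2 * 2 ^ (2 * (8 * (2 * y) + 4) + 2 * (2 * y)) ≤
          (2 ^ (3 * (g + 1))) ^ 2 * 2 ^ (2 * (8 * (2 * y) + 4) + 2 * (2 * y)) :=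
          Nat.mul_le_mul_right _ (Nat.pow_le_pow_left h2 2)
      _ = 2 ^ (3 * (g + 1) * 2 + (2 * (8 * (2 * y) + 4) + 2 * (2 * y))) := by
          rw [← pow_mul, ← pow_add]
      _ ≤ 2 ^ M := by
          apply Nat.pow_le_pow_right (by norm_num)
          have : ((3 * (g + 1) * 2 + (2 * (8 * (2 * y) + 4) + 2 * (2 * y)) : ℕ) : ℝ) ≤ M := by
            push_cast
            rw [← hx]
            linarith
          exact_mod_cast this
  · have h1 : 3 * (g + 1) ≤ y := by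
      by_contra hcon
      push Not at hcon
      have h2 : (y : ℝ) ≤ 3 * (g + 1) := by exact_mod_cast hcon.le
      have h3 : (y : ℝ) ≤ 6 * l := by linarith
      have h4 : (y : ℝ) ^ 2 ≤ (6 * l) ^ 2 := pow_le_pow_left₀ (by positivity) h3 2
      have h5 : x ≤ (y : ℝ) ^ 2 := by rw [hx]; exact_mod_cast hy2
      have h6 := hpow 2 (by norm_num)
      have h7 : 0 < l ^ 2 := by positivity
      have h8 : (6 * l) ^ 2 = 36 * l ^ 2 := by ring
      linarith
    calc M ^ 3 ≤ (2 ^ (g + 1)) ^ 3 := Nat.pow_le_pow_left hg2.le 3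
      _ = 2 ^ (3 * (g + 1)) := by rw [← pow_mul, mul_comm]
      _ ≤ 2 ^ y := Nat.pow_le_pow_right (by norm_num) h1
  · have hXM : Real.log (XM M : ℝ) = 3000 * x * l := by
      rw [XM]
      push_cast
      rw [Real.log_pow, ← hldef, hx]
      push_cast
      ring
    have hXM1 : (1 : ℝ) ≤ (XM M : ℝ) := by
      rw [XM]
      push_cast
      rw [← hx]
      exact one_le_pow₀ (by linarith)
    have h1 : Real.log (2 * (XM M : ℝ) + 1) ≤ x * l ^ 2 := by
      calc Real.log (2 * (XM M : ℝ) + 1) ≤ Real.log (3 * (XM M : ℝ)) :=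
            Real.log_le_log (by positivity) (by linarith)
        _ = Real.log 3 + 3000 * x * l := by
            rw [Real.log_mul (by norm_num) (by positivity), hXM]
        _ ≤ x * l ^ 2 := by
            have h3 : Real.log 3 ≤ 3 - 1 := Real.log_le_sub_one_of_pos (by norm_num)
            have h4 : x * l * 10 ^ 6 ≤ x * l * l := mul_le_mul_of_nonneg_left hl (by positivity)
            have h5 : x * 1 ≤ x * l := mul_le_mul_of_nonneg_left hl1 hMpos.le
            linarith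
    have h2 : (s : ℝ) * Real.log (2 * (XM M : ℝ) + 1) ≤ s * (x * l ^ 2) :=
      mul_le_mul_of_nonneg_left h1 (by positivity)
    rw [← hx, hlog]
    refine h2.trans ?_
    rw [div_mul_eq_mul_div, le_div_iff₀ (by linarith)]
    calc (s : ℝ) * (x * l ^ 2) * y = (s * y) * (x * l ^ 2) := by ring
      _ ≤ (x ^ 2 * l ^ 21) * (x * l ^ 2) := mul_le_mul_of_nonneg_right hsy (by positivity)
      _ = x ^ 3 * l ^ 23 := by ring
      _ ≤ x ^ 3 * l ^ 30 := by
          apply mul_le_mul_of_nonneg_left _ (by positivity)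
          exact pow_le_pow_right₀ hl1 (by norm_num)
  · rw [← hx, hlog]
    push_cast
    have h1 : (20 : ℝ) * (y * l ^ 4) ≤ l * (y * l ^ 4) :=
      mul_le_mul_of_nonneg_right (by linarith) (by positivity)
    have h2 : 1 * l ^ 4 ≤ y * l ^ 4 := mul_le_mul_of_nonneg_right hy0' (by positivity)
    calc ((8 : ℝ) * (2 * y) + 4) * l ^ 4 ≤ 20 * (y * l ^ 4) := by linarith
      _ ≤ l * (y * l ^ 4) := h1
      _ = y * l ^ 5 := by ring
      _ ≤ x := hy1
  · have hXM : Real.log (XM M : ℝ) = 3000 * x * l := by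
      rw [XM]
      push_cast
      rw [Real.log_pow, ← hldef, hx]
      push_cast
      ring
    rw [hXM, div_le_iff₀ (Real.log_pos (by norm_num)), ← hx]
    have h3 := Real.log_two_gt_d9
    have h4 : 3000 * l ≤ x * (1 / 2) := by linarith
    have h5 : x * (3000 * l) ≤ x * (x * (1 / 2)) := mul_le_mul_of_nonneg_left h4 hMpos.le
    have h6 : x ^ 2 * (1 / 2) ≤ x ^ 2 * Real.log 2 :=
      mul_le_mul_of_nonneg_left (by linarith) (by positivity)
    linarith

end Pool.Agent.Work.MP_e0aece_nt.Sq
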