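import Pool.Agent.Work.MP_e0aece_nt.Sq.ItemA1
import Pool.Agent.Work.MP_e0aece_nt.Bd.B02
import Pool.Agent.Work.MP_e0aece_nt.Sq.ItemA3
import Pool.Agent.Work.MP_e0aece_nt.Sq.ItemA4
import Pool.Agent.Work.MP_e0aece_nt.Bd.B05
import Pool.Agent.Work.MP_e0aece_nt.Sq.ItemA7
import Pool.Agent.Work.MP_e0aece_nt.Sq.ItemA8
import Pool.Agent.Work.MP_e0aece_nt.Bd.B06
import Pool.Agent.Work.MP_e0aece_nt.Bd.B04
import Pool.Agent.Work.MP_e0aece_nt.Sq.ItemD4
import Pool.Agent.Work.MP_e0aece_nt.Sq.ItemD5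

/-!
# Assembly: `R x ≥ √(log x) / (log log x) ^ C`
-/

namespace Pool.Agent.Work.MP_e0aece_nt.Sq

/-- Module A. -/
theorem modA : ClaimA :=
  claimA claimA1 (claimA6 claimA2 (claimA4 claimA3) claimA5) claimA7 claimA8

/-- Module W. -/
theorem modW : ClaimWeil :=
  claimWeil claimW1 (claimW4 claimW2 claimW3) claimW5
    (claimW10 (claimW9 (claimW7 claimW6) claimW8))

/-- Module B. -/
theorem modB : ClaimB :=
  claimB (claimB3 claimB0 (claimB2 claimB1)) (claimB6 (claimB5 modW))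
    (claimB8 (claimB4 (claimB2 claimB1))) (claimB9 claimB7) claimB10 claimB11

/-- C7. -/
theorem modC7 : ClaimC7 := claimC7 claimC2 claimC3 (claimC6 claimC1 claimC4 claimC5)

/-- Module C. -/
theorem modC : ClaimC :=
  claimC (claimC12 modC7 (claimC9 claimC8))
    (claimC15 modC7 (claimC9 claimC8) claimC10 (claimC11 claimC1 (claimC9 claimC8))
      claimC13 claimC14) claimC16

/-- The final theorem. -/
theorem claimFinal_all : ClaimFinal :=
  claimFinal (claimD4 modA (claimBcount modB) modC claimD1 claimD2 claimD3 claimD5)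

end Pool.Agent.Work.MP_e0aece_nt.Sq
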